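import Mathlib

/-!
# Job 3584 (BD-6): the density of the edge part
-/

set_option autoImplicit false
set_option linter.unusedSectionVars false

namespace Pool.Agent.TH948.BD

open Finset
open scoped Classical

theorem edge_density_ev (r : ℕ) (hr : 2 ≤ r) (C : ℝ) (hC : 0 < C) :
    ∀ᶠ n : ℕ in Filter.atTop,
      (⌈(9 * r / n : ℝ) ^ (2 * r / ((r : ℝ) ^ 2 - 1) - (r - 1))⌉₊ : ℝ) *
          (C * Real.log n / (n : ℝ) ^ (r - 1)) ≤
        (C + 1) * ((n : ℝ) ^ (-((2 : ℝ) / r)) * (Real.log n) ^ ((1 : ℝ) / ((r.choose 2 : ℕ) : ℝ))) := by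
  rcases Nat.lt_or_ge 2 r with hr3 | hr2
  · -- `r ≥ 3`
    have hr3' : (3 : ℝ) ≤ r := by exact_mod_cast hr3
    have hr0 : (0 : ℝ) < r := by linarith
    have hq : (0 : ℝ) < (r : ℝ) ^ 2 - 1 := by nlinarith
    set a : ℝ := 2 * r / ((r : ℝ) ^ 2 - 1) - (r - 1) with ha
    set δ : ℝ := 2 * r / ((r : ℝ) ^ 2 - 1) - 2 / r with hδ
    have hδ0 : 0 < δ := by
      rw [hδ, sub_pos, div_lt_div_iff₀ hr0 hq]
      nlinarith
    have ha0 : a ≤ 0 := by
      rw [ha, sub_nonpos, div_le_iff₀ hq]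
      nlinarith [mul_nonneg (sub_nonneg.2 hr3') (sub_nonneg.2 hr3')]
    have hlog : ∀ᶠ n : ℕ in Filter.atTop,
        Real.log n ≤ ((C + 1) / (2 * C)) * (n : ℝ) ^ δ := by
      have h1 := (isLittleO_log_rpow_atTop hδ0).def (c := (C + 1) / (2 * C)) (by positivity)
      have h2 := tendsto_natCast_atTop_atTop (R := ℝ) |>.eventually h1
      filter_upwards [h2, Filter.eventually_ge_atTop 1] with n hn hn1
      have h3 : (0 : ℝ) ≤ Real.log n := Real.log_nonneg (by exact_mod_cast hn1)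
      rw [Real.norm_of_nonneg h3, Real.norm_of_nonneg (by positivity)] at hn
      exact hn
    have hlog1 : ∀ᶠ n : ℕ in Filter.atTop, 1 ≤ Real.log n :=
      (Real.tendsto_log_atTop.comp (tendsto_natCast_atTop_atTop (R := ℝ))).eventually_ge_atTop 1
    filter_upwards [hlog, hlog1, Filter.eventually_ge_atTop (9 * r)] with n hn hn1 hn9
    have hn9' : (9 : ℝ) * r ≤ n := by exact_mod_cast hn9
    have hn0 : (0 : ℝ) < n := by linarith
    have hx0 : (0 : ℝ) < 9 * r / n := by positivity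
    have hx1 : (9 : ℝ) * r / n ≤ 1 := by rw [div_le_one hn0]; exact hn9'
    have hxa1 : 1 ≤ (9 * r / n : ℝ) ^ a := Real.one_le_rpow_of_pos_of_le_one_of_nonpos hx0 hx1 ha0
    have hceil : (⌈(9 * r / n : ℝ) ^ a⌉₊ : ℝ) ≤ 2 * (n : ℝ) ^ (-a) := by
      have h1 := (Nat.ceil_lt_add_one (by linarith : (0 : ℝ) ≤ (9 * r / n : ℝ) ^ a)).le
      have h2 : (9 * r / n : ℝ) ^ a ≤ (n : ℝ) ^ (-a) := by
        rw [Real.div_rpow (by positivity) hn0.le, Real.rpow_neg hn0.le, ← one_div]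
        apply div_le_div_of_nonneg_right _ (by positivity)
        exact Real.rpow_le_one_of_one_le_of_nonpos (by linarith) ha0
      linarith
    have hpow : (n : ℝ) ^ (r - 1) = (n : ℝ) ^ ((r : ℝ) - 1) := by
      rw [← Real.rpow_natCast, Nat.cast_sub (by omega), Nat.cast_one]
    have hexp : (n : ℝ) ^ (-a) / (n : ℝ) ^ ((r : ℝ) - 1) * (n : ℝ) ^ δ = (n : ℝ) ^ (-((2 : ℝ) / r)) := by
      rw [← Real.rpow_sub hn0, ← Real.rpow_add hn0]
      congr 1
      rw [ha, hδ]; ring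
    have hpn : (0 : ℝ) < (n : ℝ) ^ ((r : ℝ) - 1) := by positivity
    calc (⌈(9 * r / n : ℝ) ^ a⌉₊ : ℝ) * (C * Real.log n / (n : ℝ) ^ (r - 1))
        ≤ (2 * (n : ℝ) ^ (-a)) * (C * Real.log n / (n : ℝ) ^ (r - 1)) := by
          apply mul_le_mul_of_nonneg_right hceil
          positivity
      _ ≤ (2 * (n : ℝ) ^ (-a)) * (C * (((C + 1) / (2 * C)) * (n : ℝ) ^ δ) / (n : ℝ) ^ (r - 1)) := by
          gcongr
      _ = (C + 1) * ((n : ℝ) ^ (-a) / (n : ℝ) ^ ((r : ℝ) - 1) * (n : ℝ) ^ δ) := by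
          rw [hpow]
          field_simp
      _ = (C + 1) * ((n : ℝ) ^ (-((2 : ℝ) / r)) * 1) := by rw [hexp, mul_one]
      _ ≤ (C + 1) * ((n : ℝ) ^ (-((2 : ℝ) / r)) *
            (Real.log n) ^ ((1 : ℝ) / ((r.choose 2 : ℕ) : ℝ))) := by
          gcongr
          exact Real.one_le_rpow hn1 (by positivity)
  · -- `r = 2`
    have hr' : r = 2 := le_antisymm hr2 hr
    subst hr'
    filter_upwards [Filter.eventually_ge_atTop 18] with n hn
    have hn' : (18 : ℝ) ≤ n := by exact_mod_cast hn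
    have hn0 : (0 : ℝ) < n := by linarith
    have hlog : 0 ≤ Real.log n := Real.log_nonneg (by linarith)
    have hx : (9 * ((2 : ℕ) : ℝ) / n : ℝ) ^
        (2 * ((2 : ℕ) : ℝ) / ((((2 : ℕ) : ℝ)) ^ 2 - 1) - (((2 : ℕ) : ℝ) - 1)) ≤ 1 := by
      apply Real.rpow_le_one (by positivity)
      · rw [div_le_one hn0]; push_cast; linarith
      · norm_num
    have hceil : (⌈(9 * ((2 : ℕ) : ℝ) / n : ℝ) ^
        (2 * ((2 : ℕ) : ℝ) / ((((2 : ℕ) : ℝ)) ^ 2 - 1) - (((2 : ℕ) : ℝ) - 1))⌉₊ : ℝ) ≤ 1 := by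
      have : ⌈(9 * ((2 : ℕ) : ℝ) / n : ℝ) ^
        (2 * ((2 : ℕ) : ℝ) / ((((2 : ℕ) : ℝ)) ^ 2 - 1) - (((2 : ℕ) : ℝ) - 1))⌉₊ ≤ 1 := by
        rw [Nat.ceil_le]; exact_mod_cast hx
      exact_mod_cast this
    have h1 : (n : ℝ) ^ (-((2 : ℝ) / ((2 : ℕ) : ℝ))) = (n : ℝ)⁻¹ := by
      rw [← Real.rpow_neg_one]; norm_num
    have h2 : (Real.log n) ^ ((1 : ℝ) / (((2 : ℕ).choose 2 : ℕ) : ℝ)) = Real.log n := by
      norm_num
    rw [h1, h2]
    calc _ ≤ 1 * (C * Real.log n / (n : ℝ) ^ (2 - 1)) := by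
          apply mul_le_mul_of_nonneg_right hceil
          positivity
      _ = C * ((n : ℝ)⁻¹ * Real.log n) := by
          norm_num
          ring
      _ ≤ (C + 1) * ((n : ℝ)⁻¹ * Real.log n) := by
          apply mul_le_mul_of_nonneg_right (by linarith)
          positivity

end Pool.Agent.TH948.BD
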